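import Mathlib
import Pool.Agent.H78R2.Phil.Main

set_option autoImplicit false

namespace Pool.Agent.Helper601.Phil3

open Pool.Agent.H78R2.Phil Pool.Agent.H78R2.Abc

lemma ht_le {m n : ℤ} (hm : m ≠ 0) (hn : n ≠ 0) {H : ℝ} (h1 : |(m : ℝ)| ≤ H)
    (h2 : |(n : ℝ)| ≤ H) : ht ((m : ℚ) / n) ≤ Real.log H := by
  unfold ht
  rw [← Rat.divInt_eq_div]
  have hd : ((Rat.divInt m n).den : ℤ) ∣ n := Rat.den_dvd m n
  have hu : (Rat.divInt m n).num ∣ m := Rat.num_dvd m hn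
  apply Real.log_le_log
  · apply lt_max_of_lt_right
    exact_mod_cast (Rat.divInt m n).pos
  · apply max_le
    · refine le_trans ?_ h1
      have h3 : ((Rat.divInt m n).num.natAbs) ≤ m.natAbs :=
        Nat.le_of_dvd (Int.natAbs_pos.2 hm) (Int.natAbs_dvd_natAbs.2 hu)
      have h4 : |(Rat.divInt m n).num| ≤ |m| := by
        rw [Int.abs_eq_natAbs, Int.abs_eq_natAbs]
        exact_mod_cast h3
      exact_mod_cast h4
    · refine le_trans ?_ h2
      have h3 : ((Rat.divInt m n).den) ≤ n.natAbs :=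
        Nat.le_of_dvd (Int.natAbs_pos.2 hn) (Int.natCast_dvd.1 hd)
      have h4 : ((Rat.divInt m n).den : ℤ) ≤ |n| := by
        rw [Int.abs_eq_natAbs]
        exact_mod_cast h3
      exact_mod_cast h4

/-- the identity, with `U = a + 3 b`, `V = 3 b - a` -/
lemma ident {a b p q w v : ℤ} (hp : p * w ^ 3 = a - b) (hq : q * v ^ 3 = a + b) (hab : a + b ≠ 0)
    (hV : 3 * b - a ≠ 0) :
    ((p : ℚ) / q) * (((a + 3 * b) * w : ℤ) / ((3 * b - a) * v : ℤ) : ℚ) ^ 3 + 1 =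
      ((16 * a ^ 3 * b : ℤ) : ℚ) / (((a + b) * (3 * b - a) ^ 3 : ℤ) : ℚ) := by
  have hp' : (p : ℚ) * w ^ 3 = a - b := by exact_mod_cast hp
  have hq' : (q : ℚ) * v ^ 3 = a + b := by exact_mod_cast hq
  have hab' : (a : ℚ) + b ≠ 0 := by exact_mod_cast hab
  have hV' : (3 : ℚ) * b - a ≠ 0 := by exact_mod_cast hV
  have hq0 : (q : ℚ) ≠ 0 := by
    intro h
    rw [h, zero_mul] at hq'
    exact hab' hq'.symm
  have hv0 : (v : ℚ) ≠ 0 := by
    intro h
    rw [h] at hq'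
    apply hab'
    rw [← hq']
    ring
  have e : ((p : ℚ) / q) * (((a + 3 * b) * w : ℤ) / ((3 * b - a) * v : ℤ) : ℚ) ^ 3 =
      (p * w ^ 3) * (a + 3 * b) ^ 3 / ((q * v ^ 3) * (3 * b - a) ^ 3) := by
    push_cast
    field_simp
  have hD : ((a : ℚ) + b) * (3 * b - a) ^ 3 ≠ 0 := mul_ne_zero hab' (pow_ne_zero 3 hV')
  rw [e, hp', hq', div_add_one hD]
  push_cast
  congr 1
  ring

lemma not_two_dvd {k l : ℕ} (hk : 0 < k) (c d : ℤ) (hd : ¬ (2 : ℤ) ∣ d) :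
    ¬ (2 : ℤ) ∣ c * 2 ^ k + d * 5 ^ l := by
  intro h
  have h1 : (2 : ℤ) ∣ c * 2 ^ k := Dvd.dvd.mul_left (dvd_pow_self 2 hk.ne') c
  have h2 : (2 : ℤ) ∣ d * 5 ^ l := (dvd_add_right h1).1 h
  rcases Int.prime_two.dvd_or_dvd h2 with h3 | h3
  · exact hd h3
  · have := Int.prime_two.dvd_of_dvd_pow h3
    norm_num at this

lemma not_five_dvd {k l : ℕ} (hl : 0 < l) (c d : ℤ) (hc : ¬ (5 : ℤ) ∣ c) :
    ¬ (5 : ℤ) ∣ c * 2 ^ k + d * 5 ^ l := by
  intro h
  have hp : Prime (5 : ℤ) := Int.prime_iff_natAbs_prime.2 (by norm_num)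
  have h1 : (5 : ℤ) ∣ d * 5 ^ l := Dvd.dvd.mul_left (dvd_pow_self 5 hl.ne') d
  have h2 : (5 : ℤ) ∣ c * 2 ^ k := (dvd_add_left h1).1 h
  rcases hp.dvd_or_dvd h2 with h3 | h3
  · exact hc h3
  · have := hp.dvd_of_dvd_pow h3
    norm_num at this

lemma cop {k l : ℕ} {z : ℤ} (h2 : ¬ (2 : ℤ) ∣ z) (h5 : ¬ (5 : ℤ) ∣ z) :
    IsCoprime (16 * ((2 : ℤ) ^ k) ^ 3 * 5 ^ l) z := by
  have hp : Prime (5 : ℤ) := Int.prime_iff_natAbs_prime.2 (by norm_num)
  have c2 : IsCoprime (2 : ℤ) z := (Int.prime_two.irreducible.coprime_iff_not_dvd).2 h2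
  have c5 : IsCoprime (5 : ℤ) z := (hp.irreducible.coprime_iff_not_dvd).2 h5
  have e : (16 : ℤ) * ((2 : ℤ) ^ k) ^ 3 = 2 ^ (4 + k * 3) := by
    rw [pow_add, pow_mul]; norm_num
  rw [e]
  exact IsCoprime.mul_left c2.pow_left c5.pow_left

lemma rad_eq {k l : ℕ} (hl : 0 < l) : rad (16 * (2 ^ k) ^ 3 * 5 ^ l) = 10 := by
  have e : 16 * (2 ^ k) ^ 3 = 2 ^ (4 + k * 3) := by
    rw [pow_add, pow_mul]; norm_num
  rw [e]
  unfold rad
  rw [Nat.primeFactors_mul (by positivity) (by positivity),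
    Nat.primeFactors_prime_pow (by omega) Nat.prime_two,
    Nat.primeFactors_prime_pow hl.ne' Nat.prime_five]
  decide

/-- The pair for `a = 2 ^ k`, `b = 5 ^ l` with `w ^ 3 ∣ a - b`, `v ^ 3 ∣ a + b`. -/
lemma one_pair {ε α β : ℝ} (hα : 0 ≤ α) (hε : 0 ≤ ε) (hαε : α + ε ≤ 4 / 3)
    {k l : ℕ} (hk : 0 < k) (hl : 0 < l) {w v : ℕ} (hw : 0 < w) (hv : 0 < v) (hwv : w ≤ v)
    (h1 : (2 : ℤ) ^ k < 3 * 5 ^ l) (h2 : (5 : ℤ) ^ l < 3 * 2 ^ k)
    (hdw : (w : ℤ) ^ 3 ∣ 2 ^ k - 5 ^ l) (hdv : (v : ℤ) ^ 3 ∣ 2 ^ k + 5 ^ l) :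
    ∃ x y : ℚ, x ≠ 0 ∧ y ≠ 0 ∧ x * y ^ 3 ≠ 1 ∧ x * y ^ 3 + 1 ≠ 0 ∧
      (x * y ^ 3 + 1).num.natAbs = 16 * (2 ^ k) ^ 3 * 5 ^ l ∧
      (-(∑ᶠ p ∈ S (x * y ^ 3 + 1), Real.log ((padicNorm p (x * y ^ 3 + 1) : ℚ) : ℝ)) ≤
        3 * (α * ht x + ε * ht y +
          (α * 3 + ε) * (β + ∑ᶠ p ∈ S (x * y ^ 3 + 1), Real.log (p : ℝ))) →
    9 * α * Real.log w - 3 * ε * Real.log v ≤
      3 * (α * Real.log 4 + ε * Real.log 8 + (α * 3 + ε) * (β + Real.log 10)) + Real.log 2) := by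
  obtain ⟨p, hp⟩ := hdw
  obtain ⟨q, hq⟩ := hdv
  set a : ℤ := 2 ^ k with ha
  set b : ℤ := 5 ^ l with hb
  have ha0 : 0 < a := by positivity
  have hb0 : 0 < b := by positivity
  have hp' : p * (w : ℤ) ^ 3 = a - b := by rw [hp]; ring
  have hq' : q * (v : ℤ) ^ 3 = a + b := by rw [hq]; ring
  have hw0 : (0 : ℤ) < w := by exact_mod_cast hw
  have hv0 : (0 : ℤ) < v := by exact_mod_cast hv
  have hV : 0 < 3 * b - a := by linarith
  have hab : a - b ≠ 0 := by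
    intro h0
    have h3 : ¬ (2 : ℤ) ∣ 1 * 2 ^ k + (-1) * 5 ^ l := not_two_dvd hk 1 (-1) (by norm_num)
    apply h3
    have : (1 : ℤ) * 2 ^ k + (-1) * 5 ^ l = a - b := by rw [ha, hb]; ring
    rw [this, h0]
    exact dvd_zero _
  have hp0 : p ≠ 0 := by
    rintro rfl
    apply hab
    rw [← hp', zero_mul]
  have hq0 : 0 < q := by
    by_contra hq1
    have : q * (v : ℤ) ^ 3 ≤ 0 := mul_nonpos_of_nonpos_of_nonneg (by linarith) (by positivity)
    linarith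
  set x : ℚ := (p : ℚ) / q with hx
  set y : ℚ := (((a + 3 * b) * w : ℤ) / ((3 * b - a) * v : ℤ) : ℚ) with hy
  have hid : x * y ^ 3 + 1 = ((16 * a ^ 3 * b : ℤ) : ℚ) / (((a + b) * (3 * b - a) ^ 3 : ℤ) : ℚ) :=
    ident hp' hq' (by positivity) hV.ne'
  have hx0 : x ≠ 0 := by
    rw [hx]
    have : (q : ℚ) ≠ 0 := by exact_mod_cast hq0.ne'
    have : (p : ℚ) ≠ 0 := by exact_mod_cast hp0
    positivity
  have hy0 : y ≠ 0 := by
    rw [hy]
    apply div_ne_zero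
    · have : (a + 3 * b) * (w : ℤ) ≠ 0 := by positivity
      exact_mod_cast this
    · have : (3 * b - a) * (v : ℤ) ≠ 0 := by positivity
      exact_mod_cast this
  have hcop : IsCoprime (16 * a ^ 3 * b) ((a + b) * (3 * b - a) ^ 3) := by
    apply IsCoprime.mul_right
    · apply cop
      · have := not_two_dvd (l := l) hk 1 1 (by norm_num)
        rwa [one_mul, one_mul] at this
      · have := not_five_dvd (k := k) hl 1 1 (by norm_num)
        rwa [one_mul, one_mul] at this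
    · apply IsCoprime.pow_right
      apply cop
      · have := not_two_dvd (l := l) hk (-1) 3 (by norm_num)
        rwa [show (-1 : ℤ) * 2 ^ k + 3 * 5 ^ l = 3 * b - a by rw [ha, hb]; ring] at this
      · have := not_five_dvd (k := k) hl (-1) 3 (by norm_num)
        rwa [show (-1 : ℤ) * 2 ^ k + 3 * 5 ^ l = 3 * b - a by rw [ha, hb]; ring] at this
  have hnum : (x * y ^ 3 + 1).num = 16 * a ^ 3 * b := by
    rw [hid]
    apply Rat.num_div_eq_of_coprime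
    · positivity
    · exact (Int.isCoprime_iff_gcd_eq_one).1 hcop
  have hne0 : x * y ^ 3 + 1 ≠ 0 := by
    intro h0
    rw [h0, Rat.num_zero] at hnum
    have : 0 < 16 * a ^ 3 * b := by positivity
    linarith
  have hne1 : x * y ^ 3 ≠ 1 := by
    intro h0
    rw [h0] at hnum
    have h2' : ((1 : ℚ) + 1).num = 2 := by
      rw [show (1 : ℚ) + 1 = ((2 : ℤ) : ℚ) by norm_num, Rat.num_intCast]
    rw [h2'] at hnum
    have : 1 ≤ a ^ 3 * b := by
      have : 0 < a ^ 3 * b := by positivity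
      linarith
    linarith [mul_assoc (16 : ℤ) (a ^ 3) b]
  have e1 : (16 * a ^ 3 * b).natAbs = 16 * (2 ^ k) ^ 3 * 5 ^ l := by
    rw [Int.natAbs_mul, Int.natAbs_mul, Int.natAbs_pow, ha, hb, Int.natAbs_pow, Int.natAbs_pow]
    rfl
  refine ⟨x, y, hx0, hy0, hne1, hne0, by rw [hnum, e1], fun key => ?_⟩
  rw [lhs_eq hne0, rad_sum hne0, hnum, e1, rad_eq hl] at key
  -- real bounds
  set A : ℝ := max (a : ℝ) (b : ℝ) with hA
  have haR : (0 : ℝ) < a := by exact_mod_cast ha0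
  have hbR : (0 : ℝ) < b := by exact_mod_cast hb0
  have ha1 : (1 : ℝ) ≤ a := by exact_mod_cast ha0
  have hwR : (0 : ℝ) < w := by exact_mod_cast hw
  have hvR : (0 : ℝ) < v := by exact_mod_cast hv
  have hwvR : (w : ℝ) ≤ v := by exact_mod_cast hwv
  have h1R : (a : ℝ) < 3 * b := by exact_mod_cast h1
  have h2R : (b : ℝ) < 3 * a := by exact_mod_cast h2
  have haA : (a : ℝ) ≤ A := le_max_left _ _
  have hbA : (b : ℝ) ≤ A := le_max_right _ _
  have hA1 : 1 ≤ A := ha1.trans haA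
  have hA0 : 0 < A := by linarith
  have hpR : (p : ℝ) * (w : ℝ) ^ 3 = a - b := by exact_mod_cast hp'
  have hqR : (q : ℝ) * (v : ℝ) ^ 3 = a + b := by exact_mod_cast hq'
  have hq0R : (0 : ℝ) < q := by exact_mod_cast hq0
  have hNA : A ^ 4 / 2 ≤ 16 * (a : ℝ) ^ 3 * b := by
    rcases max_choice (a : ℝ) (b : ℝ) with hm | hm
    · rw [hA, hm]
      have : (a : ℝ) ^ 3 * a ≤ (a : ℝ) ^ 3 * (3 * b) :=
        mul_le_mul_of_nonneg_left h1R.le (by positivity)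
      nlinarith
    · rw [hA, hm]
      have h3 : (b : ℝ) ^ 3 ≤ (3 * a) ^ 3 := pow_le_pow_left₀ hbR.le h2R.le 3
      have h4 : (b : ℝ) ^ 3 * b ≤ (3 * a) ^ 3 * b := mul_le_mul_of_nonneg_right h3 hbR.le
      have h5 : 0 < (a : ℝ) ^ 3 * b := by positivity
      nlinarith
  have hw3 : (0 : ℝ) < (w : ℝ) ^ 3 := by positivity
  have hv3 : (w : ℝ) ^ 3 ≤ (v : ℝ) ^ 3 := pow_le_pow_left₀ hwR.le hwvR 3
  have hHx : ht x ≤ Real.log (4 * A / (w : ℝ) ^ 3) := by
    rw [hx]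
    apply ht_le hp0 hq0.ne'
    · rw [le_div_iff₀ hw3]
      have : |(p : ℝ)| * (w : ℝ) ^ 3 = |(a : ℝ) - b| := by
        rw [← hpR, abs_mul, abs_of_pos hw3]
      rw [this, abs_le]
      constructor <;> linarith
    · rw [le_div_iff₀ hw3, abs_of_pos hq0R]
      have : (q : ℝ) * (w : ℝ) ^ 3 ≤ q * (v : ℝ) ^ 3 := mul_le_mul_of_nonneg_left hv3 hq0R.le
      linarith
  have hHy : ht y ≤ Real.log (8 * A * v) := by
    rw [hy]
    apply ht_le
    · positivity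
    · positivity
    · push_cast
      rw [abs_of_pos (by positivity)]
      have : ((a : ℝ) + 3 * b) * w ≤ (4 * A) * v :=
        mul_le_mul (by linarith) hwvR hwR.le (by linarith)
      have h6 : 0 < A * v := by positivity
      linarith
    · push_cast
      have hVR : (0 : ℝ) < 3 * b - a := by linarith
      rw [abs_of_pos (by positivity)]
      have : (3 * (b : ℝ) - a) * v ≤ (3 * A) * v :=
        mul_le_mul_of_nonneg_right (by linarith) hvR.le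
      have h6 : 0 < A * v := by positivity
      linarith
  have hlx : Real.log (4 * A / (w : ℝ) ^ 3) = Real.log 4 + Real.log A - 3 * Real.log w := by
    rw [Real.log_div (by positivity) (by positivity), Real.log_mul (by norm_num) hA0.ne',
      Real.log_pow]
    push_cast
    ring
  have hly : Real.log (8 * A * v) = Real.log 8 + Real.log A + Real.log v := by
    rw [Real.log_mul (by positivity) (by positivity), Real.log_mul (by norm_num) hA0.ne']
  have hlN : 4 * Real.log A - Real.log 2 ≤ Real.log ((16 * (2 ^ k) ^ 3 * 5 ^ l : ℕ) : ℝ) := by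
    have h7 : Real.log (A ^ 4 / 2) = 4 * Real.log A - Real.log 2 := by
      rw [Real.log_div (by positivity) (by norm_num), Real.log_pow]
      push_cast
      ring
    rw [← h7]
    apply Real.log_le_log (by positivity)
    refine hNA.trans (le_of_eq ?_)
    rw [ha, hb]
    push_cast
    ring
  have hlA : 0 ≤ Real.log A := Real.log_nonneg hA1
  have k1 : α * ht x ≤ α * (Real.log 4 + Real.log A - 3 * Real.log w) :=
    mul_le_mul_of_nonneg_left (hlx ▸ hHx) hα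
  have k2 : ε * ht y ≤ ε * (Real.log 8 + Real.log A + Real.log v) :=
    mul_le_mul_of_nonneg_left (hly ▸ hHy) hε
  have k3 : (3 * α + 3 * ε - 4) * Real.log A ≤ 0 :=
    mul_nonpos_of_nonpos_of_nonneg (by linarith) hlA
  push_cast at key hlN
  nlinarith [key, hlN, k1, k2, k3]

lemma cong (j k l : ℕ) (hk : Odd k) :
    (7 : ℤ) ^ (j + 1) ∣ 2 ^ (15 * 77 ^ j * k) - 5 ^ (30 * 77 ^ j * l) ∧
    (11 : ℤ) ^ (j + 1) ∣ 2 ^ (15 * 77 ^ j * k) + 5 ^ (30 * 77 ^ j * l) := by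
  have e77 : 77 ^ j = 7 ^ j * 11 ^ j := by rw [← mul_pow]; norm_num
  have o11 : Odd (11 ^ j) := Odd.pow (by decide)
  have o7 : Odd (7 ^ j) := Odd.pow (by decide)
  constructor
  · have h1 : (8 : ℤ) ^ 7 ^ j ≡ 1 [ZMOD 7 ^ (j + 1)] := by
      have := dvd_sub_pow_of_dvd_sub (R := ℤ) (p := 7) (a := 1) (b := 8) (by norm_num) j
      rw [one_pow] at this
      exact (Int.modEq_iff_dvd.2 (by exact_mod_cast this))
    have h2 : (15625 : ℤ) ^ 7 ^ j ≡ 1 [ZMOD 7 ^ (j + 1)] := by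
      have := dvd_sub_pow_of_dvd_sub (R := ℤ) (p := 7) (a := 1) (b := 15625) (by norm_num) j
      rw [one_pow] at this
      exact (Int.modEq_iff_dvd.2 (by exact_mod_cast this))
    have e1 : (2 : ℤ) ^ (15 * 77 ^ j * k) = ((8 : ℤ) ^ 7 ^ j) ^ (5 * 11 ^ j * k) := by
      rw [show (8 : ℤ) = 2 ^ 3 by norm_num, ← pow_mul, ← pow_mul, e77]
      congr 1
      ring
    have e2 : (5 : ℤ) ^ (30 * 77 ^ j * l) = ((15625 : ℤ) ^ 7 ^ j) ^ (5 * 11 ^ j * l) := by
      rw [show (15625 : ℤ) = 5 ^ 6 by norm_num, ← pow_mul, ← pow_mul, e77]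
      congr 1
      ring
    have h3 : (5 : ℤ) ^ (30 * 77 ^ j * l) ≡ 2 ^ (15 * 77 ^ j * k) [ZMOD 7 ^ (j + 1)] := by
      rw [e1, e2]
      have a1 := h1.pow (5 * 11 ^ j * k)
      have a2 := h2.pow (5 * 11 ^ j * l)
      rw [one_pow] at a1 a2
      exact a2.trans a1.symm
    exact h3.dvd
  · have h1 : (32 : ℤ) ^ 11 ^ j ≡ -1 [ZMOD 11 ^ (j + 1)] := by
      have := dvd_sub_pow_of_dvd_sub (R := ℤ) (p := 11) (a := -1) (b := 32) (by norm_num) j
      rw [o11.neg_one_pow] at this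
      exact (Int.modEq_iff_dvd.2 (by exact_mod_cast this))
    have h2 : (3125 : ℤ) ^ 11 ^ j ≡ 1 [ZMOD 11 ^ (j + 1)] := by
      have := dvd_sub_pow_of_dvd_sub (R := ℤ) (p := 11) (a := 1) (b := 3125) (by norm_num) j
      rw [one_pow] at this
      exact (Int.modEq_iff_dvd.2 (by exact_mod_cast this))
    have e1 : (2 : ℤ) ^ (15 * 77 ^ j * k) = ((32 : ℤ) ^ 11 ^ j) ^ (3 * 7 ^ j * k) := by
      rw [show (32 : ℤ) = 2 ^ 5 by norm_num, ← pow_mul, ← pow_mul, e77]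
      congr 1
      ring
    have e2 : (5 : ℤ) ^ (30 * 77 ^ j * l) = ((3125 : ℤ) ^ 11 ^ j) ^ (6 * 7 ^ j * l) := by
      rw [show (3125 : ℤ) = 5 ^ 5 by norm_num, ← pow_mul, ← pow_mul, e77]
      congr 1
      ring
    have oo : Odd (3 * 7 ^ j * k) := ((by decide : Odd 3).mul o7).mul hk
    have a1 := h1.pow (3 * 7 ^ j * k)
    have a2 := h2.pow (6 * 7 ^ j * l)
    rw [oo.neg_one_pow] at a1
    rw [one_pow] at a2
    rw [e1, e2]
    have a3 := a1.add a2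
    rw [neg_add_cancel] at a3
    exact (Int.modEq_zero_iff_dvd).1 a3

lemma irr : Irrational (2 * Real.log 2 / (2 * Real.log 5)) := by
  rintro ⟨r, hr⟩
  have h2 : 0 < Real.log 2 := Real.log_pos (by norm_num)
  have h5 : 0 < Real.log 5 := Real.log_pos (by norm_num)
  have e : (r : ℝ) * Real.log 5 = Real.log 2 := by
    rw [hr]
    field_simp
  have hrpos : 0 < r := by
    have : (0 : ℝ) < r := by rw [hr]; positivity
    exact_mod_cast this
  have hnum : 0 < r.num := Rat.num_pos.2 hrpos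
  obtain ⟨n, hn⟩ : ∃ n : ℕ, r.num = n := ⟨r.num.toNat, by omega⟩
  have hd0 : (0 : ℝ) < r.den := by exact_mod_cast r.den_pos
  have hrd : (r : ℝ) = (n : ℝ) / r.den := by
    rw [Rat.cast_def, hn, Int.cast_natCast]
  have e2 : (n : ℝ) * Real.log 5 = r.den * Real.log 2 := by
    rw [← e, hrd]
    field_simp
  have e3 : Real.log ((5 : ℝ) ^ n) = Real.log ((2 : ℝ) ^ r.den) := by
    rw [Real.log_pow, Real.log_pow]
    exact e2
  have e4 : (5 : ℝ) ^ n = 2 ^ r.den :=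
    Real.log_injOn_pos (Set.mem_Ioi.2 (by positivity)) (Set.mem_Ioi.2 (by positivity)) e3
  have e5 : 5 ^ n = 2 ^ r.den := by exact_mod_cast e4
  have e6 : 2 ∣ 5 ^ n := e5 ▸ dvd_pow_self 2 r.den_pos.ne'
  have e7 := Nat.Prime.dvd_of_dvd_pow Nat.prime_two e6
  norm_num at e7

lemma approx {η : ℝ} (hη : 0 < η) (hη2 : η < Real.log 2) :
    ∃ k l : ℕ, Odd k ∧ 0 < l ∧ |(k : ℝ) * Real.log 2 - 2 * l * Real.log 5| < η := by
  have h2 : 0 < Real.log 2 := Real.log_pos (by norm_num)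
  have h5 : 0 < Real.log 5 := Real.log_pos (by norm_num)
  have hd := (dense_addSubgroupClosure_pair_iff.2 irr)
  obtain ⟨z, hz, hzc⟩ := Metric.dense_iff.1 hd (-Real.log 2) η hη
  obtain ⟨u, v, huv⟩ := AddSubgroup.mem_closure_pair.1 hzc
  rw [Metric.mem_ball, Real.dist_eq, ← huv] at hz
  have key : |((2 * u + 1 : ℤ) : ℝ) * Real.log 2 - 2 * ((-v : ℤ) : ℝ) * Real.log 5| < η := by
    refine lt_of_eq_of_lt ?_ hz
    congr 1
    simp only [zsmul_eq_mul]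
    push_cast
    ring
  have main : ∀ s t : ℤ, Odd s → 0 < s → |(s : ℝ) * Real.log 2 - 2 * (t : ℝ) * Real.log 5| < η →
      ∃ k l : ℕ, Odd k ∧ 0 < l ∧ |(k : ℝ) * Real.log 2 - 2 * l * Real.log 5| < η := by
    intro s t hs hs0 hst
    have ht : 0 < t := by
      by_contra ht
      have ht' : (t : ℝ) ≤ 0 := by exact_mod_cast not_lt.1 ht
      have hs1 : (1 : ℝ) ≤ s := by exact_mod_cast hs0
      have h1 : (t : ℝ) * Real.log 5 ≤ 0 := mul_nonpos_of_nonpos_of_nonneg ht' h5.le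
      have h3 : Real.log 2 ≤ s * Real.log 2 := by nlinarith
      have h4 := (abs_lt.1 hst).2
      linarith
    obtain ⟨k, rfl⟩ := Int.eq_ofNat_of_zero_le hs0.le
    obtain ⟨l, rfl⟩ := Int.eq_ofNat_of_zero_le ht.le
    refine ⟨k, l, by exact_mod_cast hs, by exact_mod_cast ht, ?_⟩
    exact_mod_cast hst
  have ho : Odd (2 * u + 1) := ⟨u, rfl⟩
  rcases lt_trichotomy (2 * u + 1) 0 with h | h | h
  · apply main (-(2 * u + 1)) v ho.neg (by linarith)
    rw [← abs_neg]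
    refine lt_of_eq_of_lt ?_ key
    congr 1
    push_cast
    ring
  · omega
  · exact main (2 * u + 1) (-v) ho h key

lemma exps (j : ℕ) : ∃ k l : ℕ, 0 < k ∧ 0 < l ∧ j < k ∧ (2 : ℤ) ^ k < 3 * 5 ^ l ∧
    (5 : ℤ) ^ l < 3 * 2 ^ k ∧ (7 : ℤ) ^ (j + 1) ∣ 2 ^ k - 5 ^ l ∧
    (11 : ℤ) ^ (j + 1) ∣ 2 ^ k + 5 ^ l := by
  have h2 : 0 < Real.log 2 := Real.log_pos (by norm_num)
  have h3 : 0 < Real.log 3 := Real.log_pos (by norm_num)
  have h34 : Real.log 3 < 2 * Real.log 2 := by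
    have : Real.log 3 < Real.log (2 ^ 2) := Real.log_lt_log (by norm_num) (by norm_num)
    rw [Real.log_pow] at this
    exact_mod_cast this
  set K : ℝ := 15 * 77 ^ j with hK
  have h77 : (1 : ℝ) ≤ 77 ^ j := one_le_pow₀ (by norm_num)
  have hK15 : 15 ≤ K := by linarith
  have hK0 : 0 < K := by linarith
  obtain ⟨k, l, hk, hl, hkl⟩ := approx (η := Real.log 3 / K) (by positivity) (by
    rw [div_lt_iff₀ hK0]
    nlinarith)
  have hk0 : 0 < k := hk.pos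
  have h77n : 0 < 77 ^ j := by positivity
  obtain ⟨c1, c2⟩ := cong j k l hk
  have hKl : |K * ((k : ℝ) * Real.log 2 - 2 * l * Real.log 5)| < Real.log 3 := by
    rw [abs_mul, abs_of_pos hK0]
    rwa [lt_div_iff₀' hK0] at hkl
  have lk : Real.log ((2 : ℝ) ^ (15 * 77 ^ j * k)) = K * (k * Real.log 2) := by
    rw [Real.log_pow, hK]
    push_cast
    ring
  have ll : Real.log ((5 : ℝ) ^ (30 * 77 ^ j * l)) = K * (2 * l * Real.log 5) := by
    rw [Real.log_pow, hK]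
    push_cast
    ring
  obtain ⟨b1, b2⟩ := abs_lt.1 hKl
  refine ⟨15 * 77 ^ j * k, 30 * 77 ^ j * l, by positivity, by positivity, ?_, ?_, ?_, c1, c2⟩
  · have : j < 77 ^ j := Nat.lt_pow_self (by norm_num)
    nlinarith
  · have : Real.log ((2 : ℝ) ^ (15 * 77 ^ j * k)) < Real.log (3 * (5 : ℝ) ^ (30 * 77 ^ j * l)) := by
      rw [Real.log_mul (by norm_num) (by positivity), lk, ll]
      linarith
    have := (Real.log_lt_log_iff (by positivity) (by positivity)).1 this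
    exact_mod_cast this
  · have : Real.log ((5 : ℝ) ^ (30 * 77 ^ j * l)) < Real.log (3 * (2 : ℝ) ^ (15 * 77 ^ j * k)) := by
      rw [Real.log_mul (by norm_num) (by positivity), lk, ll]
      linarith
    have := (Real.log_lt_log_iff (by positivity) (by positivity)).1 this
    exact_mod_cast this

/-- the pairs -/
lemma main {ε α β : ℝ} (hα : 1 ≤ α) (hε : 0 ≤ ε) (hαε : α + ε ≤ 4 / 3) (n : ℕ) :
    ∃ x y : ℚ, x ≠ 0 ∧ y ≠ 0 ∧ x * y ^ 3 ≠ 1 ∧ x * y ^ 3 + 1 ≠ 0 ∧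
      n < (x * y ^ 3 + 1).num.natAbs ∧
      (∀ p ∈ S (x * y ^ 3 + 1), p = 2 ∨ p = 5) ∧
      ¬ (-(∑ᶠ p ∈ S (x * y ^ 3 + 1), Real.log ((padicNorm p (x * y ^ 3 + 1) : ℚ) : ℝ)) ≤
        3 * (α * ht x + ε * ht y +
          (α * 3 + ε) * (β + ∑ᶠ p ∈ S (x * y ^ 3 + 1), Real.log (p : ℝ)))) := by
  have h7 : 0 < Real.log 7 := Real.log_pos (by norm_num)
  have h11 : Real.log 11 < 2 * Real.log 7 := by
    have : Real.log 11 < Real.log (7 ^ 2) := Real.log_lt_log (by norm_num) (by norm_num)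
    rw [Real.log_pow] at this
    exact_mod_cast this
  have hc : 0 < 9 * α * Real.log 7 - 3 * ε * Real.log 11 := by
    have hε1 : ε ≤ 1 / 3 := by linarith
    have a1 : ε * Real.log 11 ≤ ε * (2 * Real.log 7) := mul_le_mul_of_nonneg_left h11.le hε
    have a2 : ε * Real.log 7 ≤ 1 / 3 * Real.log 7 := mul_le_mul_of_nonneg_right hε1 h7.le
    have a3 : 1 * Real.log 7 ≤ α * Real.log 7 := mul_le_mul_of_nonneg_right hα h7.le
    nlinarith
  set C : ℝ := 3 * (α * Real.log 4 + ε * Real.log 8 + (α * 3 + ε) * (β + Real.log 10)) +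
    Real.log 2 with hC
  obtain ⟨m₀, hm₀⟩ := exists_nat_gt (C / (9 * α * Real.log 7 - 3 * ε * Real.log 11))
  rw [div_lt_iff₀ hc] at hm₀
  set m : ℕ := max m₀ n with hm
  have hmm : (m₀ : ℝ) ≤ m := by exact_mod_cast le_max_left _ _
  have hnm : n ≤ m := le_max_right _ _
  obtain ⟨k, l, hk, hl, hjk, h1, h2, d1, d2⟩ := exps (3 * m)
  have hd7 : (((7 ^ m : ℕ) : ℤ)) ^ 3 ∣ 2 ^ k - 5 ^ l := by
    refine dvd_trans ?_ d1
    push_cast
    rw [← pow_mul]
    exact pow_dvd_pow 7 (by omega)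
  have hd11 : (((11 ^ m : ℕ) : ℤ)) ^ 3 ∣ 2 ^ k + 5 ^ l := by
    refine dvd_trans ?_ d2
    push_cast
    rw [← pow_mul]
    exact pow_dvd_pow 11 (by omega)
  obtain ⟨x, y, hx, hy, hne1, hne0, hnum, himp⟩ := one_pair (β := β) (by linarith : 0 ≤ α) hε hαε
    hk hl (w := 7 ^ m) (v := 11 ^ m) (by positivity) (by positivity)
    (Nat.pow_le_pow_left (by norm_num) m) h1 h2 hd7 hd11
  refine ⟨x, y, hx, hy, hne1, hne0, ?_, ?_, ?_⟩
  · rw [hnum]
    have a1 : k < 2 ^ k := Nat.lt_two_pow_self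
    have a2 : 2 ^ k ≤ (2 ^ k) ^ 3 := Nat.le_self_pow (by norm_num) _
    have a3 : 1 ≤ 5 ^ l := Nat.one_le_pow _ _ (by norm_num)
    have a4 : (2 ^ k) ^ 3 * 1 ≤ (2 ^ k) ^ 3 * 5 ^ l := Nat.mul_le_mul_left _ a3
    have a5 : 16 * (2 ^ k) ^ 3 * 5 ^ l = 16 * ((2 ^ k) ^ 3 * 5 ^ l) := by ring
    omega
  · intro p hp
    rw [S_eq hne0, hnum, Finset.mem_coe, Nat.mem_primeFactors] at hp
    obtain ⟨hp, hd, -⟩ := hp
    rcases (Nat.Prime.dvd_mul hp).1 hd with h | h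
    · rcases (Nat.Prime.dvd_mul hp).1 h with h | h
      · left
        have : p ∣ 2 ^ 4 := by simpa using h
        exact (Nat.prime_dvd_prime_iff_eq hp Nat.prime_two).1 (hp.dvd_of_dvd_pow this)
      · left
        exact (Nat.prime_dvd_prime_iff_eq hp Nat.prime_two).1
          (hp.dvd_of_dvd_pow (hp.dvd_of_dvd_pow h))
    · right
      exact (Nat.prime_dvd_prime_iff_eq hp Nat.prime_five).1 (hp.dvd_of_dvd_pow h)
  · intro hineq
    have hb := himp hineq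
    push_cast at hb
    rw [Real.log_pow, Real.log_pow] at hb
    have hb2 : (m : ℝ) * (9 * α * Real.log 7 - 3 * ε * Real.log 11) ≤ C := by
      rw [hC]
      linarith
    have hb3 : (m₀ : ℝ) * (9 * α * Real.log 7 - 3 * ε * Real.log 11) ≤
        m * (9 * α * Real.log 7 - 3 * ε * Real.log 11) := mul_le_mul_of_nonneg_right hmm hc.le
    linarith

end Pool.Agent.Helper601.Phil3
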